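import Pool.Agent.N955.UB.Main

/-!
# Subcritical bootstrap percolation at criticality: the expected occupation time

For a subcritical update family which percolates almost surely at its critical probability, the
expected occupation time of the origin at the critical probability is finite if and only if the
critical probability is one.
-/

set_option autoImplicit false

open MeasureTheory Pool.Agent.N955.UB

theorem Pool.Agent.Results.MP_28b826_pr.ExpectedTimeAtCriticality.result
    (U : Finset (Finset (ℤ × ℤ))) (_hU : IsUpdateFamily U) (hsub : IsSubcritical U)
    (hperc : bern (pc U) (perc U) = 1) :
    ∫⁻ ω, occTime U ω ∂(bern (pc U)) < ⊤ ↔ pc U = 1 :=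
  main hsub hperc
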